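import Pool.Agent.Helper5.FS.Stmts

set_option autoImplicit false

open Finset

namespace Pool.Agent.Helper5.FS

open scoped Classical in
theorem par_card {n m : ℕ} {E : Finset (Finset (Fin n))} :
    Set.ncard {P : Finset (Finset (Fin n)) |
      P.card = m ∧
      (∀ B ∈ P, B.Nonempty) ∧
      (∀ B ∈ P, ∀ C ∈ P, B ≠ C → Disjoint B C) ∧
      (∀ v : Fin n, ∃ B ∈ P, v ∈ B) ∧
      (∀ B ∈ P, ∀ e ∈ E, ¬ e ⊆ B)} =
    ((univ : Finset (Finset (Finset (Fin n)))).filter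
      (fun P => Pt P ∧ Ind E P ∧ P.card = m)).card := by
  rw [← Set.ncard_coe_finset]
  congr 1
  ext P
  simp only [Set.mem_setOf_eq, coe_filter, mem_univ, true_and]
  constructor
  · rintro ⟨h1, h2, h3, h4, h5⟩
    exact ⟨⟨h2, h3, h4⟩, h5, h1⟩
  · rintro ⟨⟨h2, h3, h4⟩, h5, h1⟩
    exact ⟨h1, h2, h3, h4, h5⟩

theorem st_PAR (h1 : ST_MG1) (h2 : ST_GLO) : ST_PAR := by
  classical
  intro n m q s E b hb hq hm hqm hE
  rw [hb m, hb (m - 1), par_card, par_card]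
  refine (h2 n m q s E hq hm hqm hE _ ?_).trans (card_le_card ?_)
  · intro P hP
    exact (mem_filter.mp hP).2
  · intro R hR
    rw [mem_filter] at hR ⊢
    obtain ⟨-, hI, P, hP, A, hA, B, hB, hAB, rfl⟩ := hR
    obtain ⟨-, hPt, -, hPm⟩ := mem_filter.mp hP
    obtain ⟨k1, k2⟩ := h1 n P A B hPt hA hB hAB
    refine ⟨mem_univ _, k1, hI, ?_⟩
    omega

end Pool.Agent.Helper5.FS
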